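import Pool.Agent.Helper84.PH.Defs

/-!
# Partial hyperbolicity from a moving frame (piece PHY of MP_398e1f_an)
-/

open scoped Manifold ContDiff Topology
open Set Filter

set_option linter.unusedSectionVars false

noncomputable section

namespace HolPH

section PHY

variable {M : Type*} [TopologicalSpace M] [ChartedSpace C3 M] [IsManifold I3 ω M]

/-- the norm attached to a moving frame -/
def frameNorm (L : ∀ x : M, TangentSpace I3 x ≃ₗ[ℂ] C3) (p : TangentBundle I3 M) : ℝ :=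
  Real.sqrt (‖(L p.1 p.2).1‖ ^ 2 + ‖(L p.1 p.2).2.1‖ ^ 2 + ‖(L p.1 p.2).2.2‖ ^ 2)

theorem frameNorm_sq (L : ∀ x : M, TangentSpace I3 x ≃ₗ[ℂ] C3) (p : TangentBundle I3 M) :
    frameNorm L p ^ 2 =
      ‖(L p.1 p.2).1‖ ^ 2 + ‖(L p.1 p.2).2.1‖ ^ 2 + ‖(L p.1 p.2).2.2‖ ^ 2 :=
  Real.sq_sqrt (by positivity)

theorem frameNorm_nonneg (L : ∀ x : M, TangentSpace I3 x ≃ₗ[ℂ] C3) (p : TangentBundle I3 M) :
    0 ≤ frameNorm L p := Real.sqrt_nonneg _

theorem frame_real_smul (L : ∀ x : M, TangentSpace I3 x ≃ₗ[ℂ] C3) (x : M) (c : ℝ)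
    (v : TangentSpace I3 x) : L x (c • v) = c • L x v := by
  have h1 : c • v = (c : ℂ) • v := (Complex.coe_smul c v).symm
  have h2 : c • L x v = (c : ℂ) • L x v := (Complex.coe_smul c (L x v)).symm
  rw [h1, h2, map_smul]

theorem isRiemannianNorm_frameNorm (L : ∀ x : M, TangentSpace I3 x ≃ₗ[ℂ] C3)
    (hc : Continuous fun p : TangentBundle I3 M => ‖(L p.1 p.2).1‖)
    (hs : Continuous fun p : TangentBundle I3 M => ‖(L p.1 p.2).2.1‖)
    (hu : Continuous fun p : TangentBundle I3 M => ‖(L p.1 p.2).2.2‖) :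
    IsRiemannianNorm (frameNorm L) where
  continuous := by
    unfold frameNorm
    exact (((hc.pow 2).add (hs.pow 2)).add (hu.pow 2)).sqrt
  pos := by
    intro x v hv
    refine lt_of_le_of_ne (frameNorm_nonneg L _) ?_
    intro h
    have h2 := frameNorm_sq L ⟨x, v⟩
    rw [← h] at h2
    simp only at h2
    have e1 : ‖(L x v).1‖ ^ 2 = 0 := by nlinarith [sq_nonneg ‖(L x v).1‖, sq_nonneg ‖(L x v).2.1‖, sq_nonneg ‖(L x v).2.2‖]
    have e2 : ‖(L x v).2.1‖ ^ 2 = 0 := by nlinarith [sq_nonneg ‖(L x v).1‖, sq_nonneg ‖(L x v).2.1‖, sq_nonneg ‖(L x v).2.2‖]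
    have e3 : ‖(L x v).2.2‖ ^ 2 = 0 := by nlinarith [sq_nonneg ‖(L x v).1‖, sq_nonneg ‖(L x v).2.1‖, sq_nonneg ‖(L x v).2.2‖]
    apply hv
    have hL : L x v = 0 := by
      refine Prod.ext ?_ (Prod.ext ?_ ?_)
      · simpa using e1
      · simpa using e2
      · simpa using e3
    exact (L x).map_eq_zero_iff.mp hL
  smul := by
    intro x c v
    have h1 : frameNorm L ⟨x, c • v⟩ ^ 2 = (|c| * frameNorm L ⟨x, v⟩) ^ 2 := by
      rw [frameNorm_sq, mul_pow, frameNorm_sq]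
      simp only [frame_real_smul, Prod.smul_fst, Prod.smul_snd, norm_smul, Real.norm_eq_abs]
      ring
    have h2 : 0 ≤ |c| * frameNorm L ⟨x, v⟩ := mul_nonneg (abs_nonneg _) (frameNorm_nonneg L _)
    exact (pow_left_inj₀ (frameNorm_nonneg L _) h2 two_ne_zero).mp h1
  parallelogram := by
    intro x v w
    simp only [frameNorm_sq, map_add, map_sub, Prod.fst_add, Prod.snd_add, Prod.fst_sub,
      Prod.snd_sub]
    have h1 := parallelogram_law_with_norm ℂ (L x v).1 (L x w).1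
    have h2 := parallelogram_law_with_norm ℂ (L x v).2.1 (L x w).2.1
    have h3 := parallelogram_law_with_norm ℂ (L x v).2.2 (L x w).2.2
    nlinarith [h1, h2, h3]


/-- the splitting given by the coordinate subspaces of a frame -/
def frameEs (L : ∀ x : M, TangentSpace I3 x ≃ₗ[ℂ] C3) (x : M) : Submodule ℂ (TangentSpace I3 x) where
  carrier := {v | (L x v).1 = 0 ∧ (L x v).2.2 = 0}
  zero_mem' := by simp
  add_mem' := by
    intro v w hv hw
    simp only [Set.mem_ofPred_eq] at hv hw ⊢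
    simp [map_add, hv.1, hv.2, hw.1, hw.2]
  smul_mem' := by
    intro c v hv
    simp only [Set.mem_ofPred_eq] at hv ⊢
    simp [map_smul, hv.1, hv.2]

/-- the central directions of a frame -/
def frameEc (L : ∀ x : M, TangentSpace I3 x ≃ₗ[ℂ] C3) (x : M) : Submodule ℂ (TangentSpace I3 x) where
  carrier := {v | (L x v).2.1 = 0 ∧ (L x v).2.2 = 0}
  zero_mem' := by simp
  add_mem' := by
    intro v w hv hw
    simp only [Set.mem_ofPred_eq] at hv hw ⊢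
    simp [map_add, hv.1, hv.2, hw.1, hw.2]
  smul_mem' := by
    intro c v hv
    simp only [Set.mem_ofPred_eq] at hv ⊢
    simp [map_smul, hv.1, hv.2]

/-- the unstable directions of a frame -/
def frameEu (L : ∀ x : M, TangentSpace I3 x ≃ₗ[ℂ] C3) (x : M) : Submodule ℂ (TangentSpace I3 x) where
  carrier := {v | (L x v).1 = 0 ∧ (L x v).2.1 = 0}
  zero_mem' := by simp
  add_mem' := by
    intro v w hv hw
    simp only [Set.mem_ofPred_eq] at hv hw ⊢
    simp [map_add, hv.1, hv.2, hw.1, hw.2]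
  smul_mem' := by
    intro c v hv
    simp only [Set.mem_ofPred_eq] at hv ⊢
    simp [map_smul, hv.1, hv.2]

theorem mem_frameEs {L : ∀ x : M, TangentSpace I3 x ≃ₗ[ℂ] C3} {x : M} {v : TangentSpace I3 x} :
    v ∈ frameEs L x ↔ ‖(L x v).1‖ = 0 ∧ ‖(L x v).2.2‖ = 0 := by
  change (L x v).1 = 0 ∧ (L x v).2.2 = 0 ↔ _
  simp

theorem mem_frameEc {L : ∀ x : M, TangentSpace I3 x ≃ₗ[ℂ] C3} {x : M} {v : TangentSpace I3 x} :
    v ∈ frameEc L x ↔ ‖(L x v).2.1‖ = 0 ∧ ‖(L x v).2.2‖ = 0 := by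
  change (L x v).2.1 = 0 ∧ (L x v).2.2 = 0 ↔ _
  simp

theorem mem_frameEu {L : ∀ x : M, TangentSpace I3 x ≃ₗ[ℂ] C3} {x : M} {v : TangentSpace I3 x} :
    v ∈ frameEu L x ↔ ‖(L x v).1‖ = 0 ∧ ‖(L x v).2.1‖ = 0 := by
  change (L x v).1 = 0 ∧ (L x v).2.1 = 0 ↔ _
  simp

theorem isInvariantSplitting_frame (f : M → M) (L : ∀ x : M, TangentSpace I3 x ≃ₗ[ℂ] C3)
    (hc : Continuous fun p : TangentBundle I3 M => ‖(L p.1 p.2).1‖)
    (hs : Continuous fun p : TangentBundle I3 M => ‖(L p.1 p.2).2.1‖)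
    (hu : Continuous fun p : TangentBundle I3 M => ‖(L p.1 p.2).2.2‖)
    (a : ℝ) (ha0 : 0 < a)
    (fc : ∀ (x : M) (v : TangentSpace I3 x), ‖(L (f x) (mfderiv I3 I3 f x v)).1‖ = ‖(L x v).1‖)
    (fs : ∀ (x : M) (v : TangentSpace I3 x),
      ‖(L (f x) (mfderiv I3 I3 f x v)).2.1‖ = a * ‖(L x v).2.1‖)
    (fu : ∀ (x : M) (v : TangentSpace I3 x),
      ‖(L (f x) (mfderiv I3 I3 f x v)).2.2‖ = a⁻¹ * ‖(L x v).2.2‖) :
    IsInvariantSplitting f (frameEs L) (frameEc L) (frameEu L) := by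
  have ha : a ≠ 0 := ha0.ne'
  refine ⟨?_, ?_, ?_, ?_, ?_, ?_, ?_, ?_, ?_, ?_⟩
  · have : {p : TangentBundle I3 M | p.2 ∈ frameEs L p.1} =
        {p : TangentBundle I3 M | ‖(L p.1 p.2).1‖ = 0} ∩
          {p : TangentBundle I3 M | ‖(L p.1 p.2).2.2‖ = 0} := by
      ext p; simp only [Set.mem_ofPred_eq, mem_inter_iff, mem_frameEs]
    rw [this]
    exact (isClosed_eq hc continuous_const).inter (isClosed_eq hu continuous_const)
  · have : {p : TangentBundle I3 M | p.2 ∈ frameEc L p.1} =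
        {p : TangentBundle I3 M | ‖(L p.1 p.2).2.1‖ = 0} ∩
          {p : TangentBundle I3 M | ‖(L p.1 p.2).2.2‖ = 0} := by
      ext p; simp only [Set.mem_ofPred_eq, mem_inter_iff, mem_frameEc]
    rw [this]
    exact (isClosed_eq hs continuous_const).inter (isClosed_eq hu continuous_const)
  · have : {p : TangentBundle I3 M | p.2 ∈ frameEu L p.1} =
        {p : TangentBundle I3 M | ‖(L p.1 p.2).1‖ = 0} ∩
          {p : TangentBundle I3 M | ‖(L p.1 p.2).2.1‖ = 0} := by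
      ext p; simp only [Set.mem_ofPred_eq, mem_inter_iff, mem_frameEu]
    rw [this]
    exact (isClosed_eq hc continuous_const).inter (isClosed_eq hs continuous_const)
  · intro x v
    refine ⟨(L x).symm (0, (L x v).2.1, 0), ?_, (L x).symm ((L x v).1, 0, 0), ?_,
      (L x).symm (0, 0, (L x v).2.2), ?_, ?_⟩
    · rw [mem_frameEs]; simp
    · rw [mem_frameEc]; simp
    · rw [mem_frameEu]; simp
    · apply (L x).injective
      simp only [map_add, LinearEquiv.apply_symm_apply]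
      refine Prod.ext ?_ (Prod.ext ?_ ?_) <;> simp
  · intro x v hv w hw z hz h
    have h1 : L x v + L x w + L x z = 0 := by rw [← map_add, ← map_add, h, map_zero]
    rw [mem_frameEs] at hv
    rw [mem_frameEc] at hw
    rw [mem_frameEu] at hz
    simp only [norm_eq_zero] at hv hw hz
    have e1 := congrArg (fun q : C3 => q.1) h1
    have e2 := congrArg (fun q : C3 => q.2.1) h1
    have e3 := congrArg (fun q : C3 => q.2.2) h1
    simp only [Prod.fst_add, Prod.snd_add, hv.1, hv.2, hw.1, hw.2, hz.1, hz.2, add_zero, zero_add,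
      Prod.fst_zero, Prod.snd_zero] at e1 e2 e3
    refine ⟨?_, ?_, ?_⟩
    · apply (L x).map_eq_zero_iff.mp
      exact Prod.ext hv.1 (Prod.ext e2 hv.2)
    · apply (L x).map_eq_zero_iff.mp
      exact Prod.ext e1 (Prod.ext hw.1 hw.2)
    · apply (L x).map_eq_zero_iff.mp
      exact Prod.ext hz.1 (Prod.ext hz.2 e3)
  · intro x v
    rw [mem_frameEs, mem_frameEs, fc, fu]
    simp [ha]
  · intro x v
    rw [mem_frameEc, mem_frameEc, fs, fu]
    simp [ha]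
  · intro x v
    rw [mem_frameEu, mem_frameEu, fc, fs]
    simp [ha]
  · intro x h
    have h1 : (L x).symm (0, 1, 0) ∈ frameEs L x := by rw [mem_frameEs]; simp
    rw [h, Submodule.mem_bot] at h1
    have h2 := congrArg (L x) h1
    rw [LinearEquiv.apply_symm_apply, map_zero] at h2
    have h3 := congrArg (fun q : C3 => q.2.1) h2
    simp at h3
  · intro x h
    have h1 : (L x).symm (0, 0, 1) ∈ frameEu L x := by rw [mem_frameEu]; simp
    rw [h, Submodule.mem_bot] at h1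
    have h2 := congrArg (L x) h1
    rw [LinearEquiv.apply_symm_apply, map_zero] at h2
    have h3 := congrArg (fun q : C3 => q.2.2) h2
    simp at h3

/-- behaviour of the coordinates under iterates -/
theorem frame_iterate (f : M → M) (hf : MDifferentiable I3 I3 f)
    (L : ∀ x : M, TangentSpace I3 x ≃ₗ[ℂ] C3) (a : ℝ)
    (fc : ∀ (x : M) (v : TangentSpace I3 x), ‖(L (f x) (mfderiv I3 I3 f x v)).1‖ = ‖(L x v).1‖)
    (fs : ∀ (x : M) (v : TangentSpace I3 x),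
      ‖(L (f x) (mfderiv I3 I3 f x v)).2.1‖ = a * ‖(L x v).2.1‖)
    (fu : ∀ (x : M) (v : TangentSpace I3 x),
      ‖(L (f x) (mfderiv I3 I3 f x v)).2.2‖ = a⁻¹ * ‖(L x v).2.2‖) (k : ℕ) :
    MDifferentiable I3 I3 f^[k] ∧ ∀ (x : M) (v : TangentSpace I3 x),
      ‖(L (f^[k] x) (mfderiv I3 I3 f^[k] x v)).1‖ = ‖(L x v).1‖ ∧
      ‖(L (f^[k] x) (mfderiv I3 I3 f^[k] x v)).2.1‖ = a ^ k * ‖(L x v).2.1‖ ∧
      ‖(L (f^[k] x) (mfderiv I3 I3 f^[k] x v)).2.2‖ = a⁻¹ ^ k * ‖(L x v).2.2‖ := by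
  induction k with
  | zero =>
    refine ⟨mdifferentiable_id, fun x v => ?_⟩
    have h : mfderiv I3 I3 f^[0] x v = v := by
      have : (f^[0] : M → M) = id := rfl
      rw [this, mfderiv_id]
      rfl
    rw [h]
    refine ⟨rfl, ?_, ?_⟩
    · rw [pow_zero, one_mul]; rfl
    · rw [pow_zero, one_mul]; rfl
  | succ k ih =>
    obtain ⟨ih1, ih2⟩ := ih
    have e : (f^[k + 1] : M → M) = f ∘ f^[k] := Function.iterate_succ' f k
    rw [e]
    refine ⟨hf.comp ih1, fun x v => ?_⟩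
    have h : mfderiv I3 I3 (f ∘ f^[k]) x v =
        mfderiv I3 I3 f (f^[k] x) (mfderiv I3 I3 f^[k] x v) := by
      rw [mfderiv_comp x (hf _) (ih1 x)]
      rfl
    rw [h]
    obtain ⟨h1, h2, h3⟩ := ih2 x v
    refine ⟨?_, ?_, ?_⟩
    · rw [Function.comp_apply, fc, h1]
    · rw [Function.comp_apply, fs, h2, pow_succ]; ring
    · rw [Function.comp_apply, fu, h3, pow_succ]; ring


/-- PHY, with the two-sided bound as a hypothesis. -/
theorem ph_of_frame_aux (f : M ≃ₘ^ω⟮I3, I3⟯ M) (L : ∀ x : M, TangentSpace I3 x ≃ₗ[ℂ] C3)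
    (bd : ∀ N G : TangentBundle I3 M → ℝ, Continuous N → Continuous G →
      (∀ (x : M) (v : TangentSpace I3 x), v ≠ 0 → 0 < N ⟨x, v⟩) →
      (∀ (x : M) (c : ℝ) (v : TangentSpace I3 x), N ⟨x, c • v⟩ = |c| * N ⟨x, v⟩) →
      (∀ (x : M) (c : ℝ) (v : TangentSpace I3 x), G ⟨x, c • v⟩ = |c| * G ⟨x, v⟩) →
      ∃ C : ℝ, 0 < C ∧ ∀ v, G v ≤ C * N v)
    (hc : Continuous fun p : TangentBundle I3 M => ‖(L p.1 p.2).1‖)
    (hs : Continuous fun p : TangentBundle I3 M => ‖(L p.1 p.2).2.1‖)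
    (hu : Continuous fun p : TangentBundle I3 M => ‖(L p.1 p.2).2.2‖)
    (a : ℝ) (ha0 : 0 < a) (ha1 : a < 1)
    (fc : ∀ (x : M) (v : TangentSpace I3 x), ‖(L (f x) (mfderiv I3 I3 f x v)).1‖ = ‖(L x v).1‖)
    (fs : ∀ (x : M) (v : TangentSpace I3 x),
      ‖(L (f x) (mfderiv I3 I3 f x v)).2.1‖ = a * ‖(L x v).2.1‖)
    (fu : ∀ (x : M) (v : TangentSpace I3 x),
      ‖(L (f x) (mfderiv I3 I3 f x v)).2.2‖ = a⁻¹ * ‖(L x v).2.2‖) :
    (∃ N : TangentBundle I3 M → ℝ, IsRiemannianNorm N) ∧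
    ∀ N : TangentBundle I3 M → ℝ, IsRiemannianNorm N → IsPartiallyHyperbolic N f := by
  have hR := isRiemannianNorm_frameNorm L hc hs hu
  refine ⟨⟨_, hR⟩, fun N hN => ?_⟩
  refine ⟨frameEs L, frameEc L, frameEu L,
    isInvariantSplitting_frame f L hc hs hu a ha0 fc fs fu, ?_⟩
  obtain ⟨C1, hC1, h1⟩ := bd N (frameNorm L) hN.continuous hR.continuous hN.pos hN.smul hR.smul
  obtain ⟨C2, hC2, h2⟩ := bd (frameNorm L) N hR.continuous hN.continuous hR.pos hR.smul hN.smul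
  obtain ⟨k, hk⟩ : ∃ k : ℕ, a ^ k < ((C1 * C2) ^ 2)⁻¹ ⊓ ((C1 * C2))⁻¹ :=
    exists_pow_lt_of_lt_one (by positivity) ha1
  have hkA : a ^ k < ((C1 * C2) ^ 2)⁻¹ := lt_of_lt_of_le hk inf_le_left
  have hkB : a ^ k < (C1 * C2)⁻¹ := lt_of_lt_of_le hk inf_le_right
  -- use the exponent `k + 1`
  have hpow : a ^ (k + 1) < a ^ k := by
    have := mul_lt_mul_of_pos_left ha1 (pow_pos ha0 k)
    rw [mul_one] at this
    rw [pow_succ]; exact this
  have hkA' : a ^ (k + 1) * (C1 * C2) ^ 2 < 1 := by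
    have h3 : a ^ (k + 1) < ((C1 * C2) ^ 2)⁻¹ := hpow.trans hkA
    have h4 := mul_lt_mul_of_pos_right h3 (show 0 < (C1 * C2) ^ 2 by positivity)
    rwa [inv_mul_cancel₀ (by positivity)] at h4
  have hkB' : a ^ (k + 1) * (C1 * C2) < 1 := by
    have h3 : a ^ (k + 1) < (C1 * C2)⁻¹ := hpow.trans hkB
    have h4 := mul_lt_mul_of_pos_right h3 (show 0 < C1 * C2 by positivity)
    rwa [inv_mul_cancel₀ (by positivity)] at h4
  have hfd : MDifferentiable I3 I3 f := f.contMDiff.mdifferentiable (by decide)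
  obtain ⟨-, hit⟩ := frame_iterate f hfd L a fc fs fu (k + 1)
  -- the frame norm of the image
  have hS : ∀ (x : M) (v : TangentSpace I3 x), v ∈ frameEs L x →
      frameNorm L ⟨f^[k + 1] x, mfderiv I3 I3 f^[k + 1] x v⟩ = a ^ (k + 1) * frameNorm L ⟨x, v⟩ := by
    intro x v hv
    rw [mem_frameEs] at hv
    obtain ⟨e1, e2, e3⟩ := hit x v
    have h3 : frameNorm L ⟨f^[k + 1] x, mfderiv I3 I3 f^[k + 1] x v⟩ ^ 2 =
        (a ^ (k + 1) * frameNorm L ⟨x, v⟩) ^ 2 := by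
      rw [frameNorm_sq, mul_pow, frameNorm_sq]
      simp only [e1, e2, e3, hv.1, hv.2]
      ring
    exact (pow_left_inj₀ (frameNorm_nonneg L _)
      (mul_nonneg (pow_nonneg ha0.le _) (frameNorm_nonneg L _)) two_ne_zero).mp h3
  have hCc : ∀ (x : M) (v : TangentSpace I3 x), v ∈ frameEc L x →
      frameNorm L ⟨f^[k + 1] x, mfderiv I3 I3 f^[k + 1] x v⟩ = frameNorm L ⟨x, v⟩ := by
    intro x v hv
    rw [mem_frameEc] at hv
    obtain ⟨e1, e2, e3⟩ := hit x v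
    have h3 : frameNorm L ⟨f^[k + 1] x, mfderiv I3 I3 f^[k + 1] x v⟩ ^ 2 =
        (frameNorm L ⟨x, v⟩) ^ 2 := by
      rw [frameNorm_sq, frameNorm_sq]
      simp only [e1, e2, e3, hv.1, hv.2]
      ring
    exact (pow_left_inj₀ (frameNorm_nonneg L _) (frameNorm_nonneg L _) two_ne_zero).mp h3
  have hU : ∀ (x : M) (v : TangentSpace I3 x), v ∈ frameEu L x →
      a ^ (k + 1) * frameNorm L ⟨f^[k + 1] x, mfderiv I3 I3 f^[k + 1] x v⟩ = frameNorm L ⟨x, v⟩ := by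
    intro x v hv
    rw [mem_frameEu] at hv
    obtain ⟨e1, e2, e3⟩ := hit x v
    have h3 : (a ^ (k + 1) * frameNorm L ⟨f^[k + 1] x, mfderiv I3 I3 f^[k + 1] x v⟩) ^ 2 =
        (frameNorm L ⟨x, v⟩) ^ 2 := by
      rw [mul_pow, frameNorm_sq, frameNorm_sq]
      simp only [e1, e2, e3, hv.1, hv.2]
      have : a ^ (k + 1) * a⁻¹ ^ (k + 1) = 1 := by
        rw [← mul_pow, mul_inv_cancel₀ ha0.ne', one_pow]
      have h5 : (a ^ (k + 1)) ^ 2 * (a⁻¹ ^ (k + 1) * ‖(L x v).2.2‖) ^ 2 = ‖(L x v).2.2‖ ^ 2 := by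
        calc (a ^ (k + 1)) ^ 2 * (a⁻¹ ^ (k + 1) * ‖(L x v).2.2‖) ^ 2
            = (a ^ (k + 1) * a⁻¹ ^ (k + 1)) ^ 2 * ‖(L x v).2.2‖ ^ 2 := by ring
          _ = _ := by rw [this]; ring
      linear_combination h5
    exact (pow_left_inj₀ (mul_nonneg (pow_nonneg ha0.le _) (frameNorm_nonneg L _))
      (frameNorm_nonneg L _) two_ne_zero).mp h3
  have hap : 0 < a ^ (k + 1) := pow_pos ha0 _
  -- estimates for unit vectors
  have eS : ∀ (x : M) (v : TangentSpace I3 x), v ∈ frameEs L x → N ⟨x, v⟩ = 1 →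
      N ⟨f^[k + 1] x, mfderiv I3 I3 f^[k + 1] x v⟩ ≤ a ^ (k + 1) * (C1 * C2) := by
    intro x v hv h
    calc N ⟨f^[k + 1] x, mfderiv I3 I3 f^[k + 1] x v⟩
        ≤ C2 * frameNorm L ⟨f^[k + 1] x, mfderiv I3 I3 f^[k + 1] x v⟩ := h2 _
      _ = C2 * (a ^ (k + 1) * frameNorm L ⟨x, v⟩) := by rw [hS x v hv]
      _ ≤ C2 * (a ^ (k + 1) * (C1 * N ⟨x, v⟩)) := by
          gcongr
          exact h1 _
      _ = a ^ (k + 1) * (C1 * C2) := by rw [h]; ring
  have eC1 : ∀ (x : M) (v : TangentSpace I3 x), v ∈ frameEc L x → N ⟨x, v⟩ = 1 →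
      N ⟨f^[k + 1] x, mfderiv I3 I3 f^[k + 1] x v⟩ ≤ C1 * C2 := by
    intro x v hv h
    calc N ⟨f^[k + 1] x, mfderiv I3 I3 f^[k + 1] x v⟩
        ≤ C2 * frameNorm L ⟨f^[k + 1] x, mfderiv I3 I3 f^[k + 1] x v⟩ := h2 _
      _ = C2 * frameNorm L ⟨x, v⟩ := by rw [hCc x v hv]
      _ ≤ C2 * (C1 * N ⟨x, v⟩) := by
          gcongr
          exact h1 _
      _ = C1 * C2 := by rw [h]; ring
  have eC2 : ∀ (x : M) (v : TangentSpace I3 x), v ∈ frameEc L x → N ⟨x, v⟩ = 1 →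
      1 ≤ (C1 * C2) * N ⟨f^[k + 1] x, mfderiv I3 I3 f^[k + 1] x v⟩ := by
    intro x v hv h
    calc (1 : ℝ) = N ⟨x, v⟩ := h.symm
      _ ≤ C2 * frameNorm L ⟨x, v⟩ := h2 _
      _ = C2 * frameNorm L ⟨f^[k + 1] x, mfderiv I3 I3 f^[k + 1] x v⟩ := by rw [hCc x v hv]
      _ ≤ C2 * (C1 * N ⟨f^[k + 1] x, mfderiv I3 I3 f^[k + 1] x v⟩) := by
          gcongr
          exact h1 _
      _ = _ := by ring
  have eU : ∀ (x : M) (v : TangentSpace I3 x), v ∈ frameEu L x → N ⟨x, v⟩ = 1 →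
      1 ≤ a ^ (k + 1) * (C1 * C2) * N ⟨f^[k + 1] x, mfderiv I3 I3 f^[k + 1] x v⟩ := by
    intro x v hv h
    calc (1 : ℝ) = N ⟨x, v⟩ := h.symm
      _ ≤ C2 * frameNorm L ⟨x, v⟩ := h2 _
      _ = C2 * (a ^ (k + 1) * frameNorm L ⟨f^[k + 1] x, mfderiv I3 I3 f^[k + 1] x v⟩) := by
          rw [hU x v hv]
      _ ≤ C2 * (a ^ (k + 1) * (C1 * N ⟨f^[k + 1] x, mfderiv I3 I3 f^[k + 1] x v⟩)) := by
          gcongr
          exact h1 _
      _ = _ := by ring
  have hC12 : 0 < C1 * C2 := by positivity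
  refine ⟨k + 1, by omega, fun x => ⟨?_, ?_, ?_, ?_⟩⟩
  · intro v hv h
    exact lt_of_le_of_lt (eS x v hv h) hkB'
  · intro v hv h
    have h3 := eU x v hv h
    by_contra hcon
    have hle : N ⟨f^[k + 1] x, mfderiv I3 I3 f^[k + 1] x v⟩ ≤ 1 := not_lt.mp hcon
    have h4 : a ^ (k + 1) * (C1 * C2) * N ⟨f^[k + 1] x, mfderiv I3 I3 f^[k + 1] x v⟩ ≤
        a ^ (k + 1) * (C1 * C2) * 1 := by gcongr
    linarith
  · intro v hv w hw h h'
    have h3 := eS x v hv h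
    have h4 := eC2 x w hw h'
    by_contra hcon
    have hle : N ⟨f^[k + 1] x, mfderiv I3 I3 f^[k + 1] x w⟩ ≤
        N ⟨f^[k + 1] x, mfderiv I3 I3 f^[k + 1] x v⟩ := not_lt.mp hcon
    have h5 : (C1 * C2) * N ⟨f^[k + 1] x, mfderiv I3 I3 f^[k + 1] x w⟩ ≤
        (C1 * C2) * (a ^ (k + 1) * (C1 * C2)) :=
      mul_le_mul_of_nonneg_left (hle.trans h3) hC12.le
    nlinarith
  · intro v hv w hw h h'
    have h3 := eC1 x v hv h
    have h4 := eU x w hw h'
    by_contra hcon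
    have hle : N ⟨f^[k + 1] x, mfderiv I3 I3 f^[k + 1] x w⟩ ≤
        N ⟨f^[k + 1] x, mfderiv I3 I3 f^[k + 1] x v⟩ := not_lt.mp hcon
    have h5 : a ^ (k + 1) * (C1 * C2) * N ⟨f^[k + 1] x, mfderiv I3 I3 f^[k + 1] x w⟩ ≤
        a ^ (k + 1) * (C1 * C2) * (C1 * C2) :=
      mul_le_mul_of_nonneg_left (hle.trans h3) (by positivity)
    nlinarith

end PHY

end HolPH
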